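import Mathlib

set_option autoImplicit false

/-! Billiard trajectories in a solid regular tetrahedron: definitions. -/

namespace Pool.Agent.X146.Tet

open scoped RealInnerProductSpace

/-- Euclidean three-space -/
abbrev E3 : Type := EuclideanSpace ℝ (Fin 3)

/-- `A` lists the four vertices of a regular tetrahedron: the six edges have one and the same
positive length. -/
def IsRegularTetrahedron (A : Fin 4 → E3) : Prop :=
  ∃ a : ℝ, 0 < a ∧ ∀ i j : Fin 4, i ≠ j → dist (A i) (A j) = a

/-- the solid tetrahedron -/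
def Solid (A : Fin 4 → E3) : Set E3 := convexHull ℝ (Set.range A)

/-- the relative interior of the face opposite to the vertex number `i` -/
def OpenFace (A : Fin 4 → E3) (i : Fin 4) : Set E3 :=
  {y | ∃ c : Fin 4 → ℝ, c i = 0 ∧ (∀ j, j ≠ i → 0 < c j) ∧ ∑ j, c j = 1 ∧ y = ∑ j, c j • A j}

/-- `u'` is the reflection of the velocity `u` in the face opposite to the vertex number `i`:
`u' = u - 2 ⟨u, ν⟩ ν` with a unit normal `ν` of that face -/
def Reflects (A : Fin 4 → E3) (i : Fin 4) (u u' : E3) : Prop :=
  ∃ ν : E3, ‖ν‖ = 1 ∧ (∀ j k : Fin 4, j ≠ i → k ≠ i → ⟪A j - A k, ν⟫ = 0) ∧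
    u' = u - (2 * ⟪u, ν⟫) • ν

/-- The billiard trajectory that starts at the point `x` of the solid with the unit velocity `v`
is back at `x` with velocity `v` after `n` bounces.

The bounce number `k` (for `1 ≤ k ≤ n`) takes place at the point `p k` of the relative interior of
the face number `f k`; `u k` is the velocity after it, `p 0 = x`, `u 0 = v`.  The leg number `k`
starts at `p k`, has velocity `u k` and positive duration `t k`, it runs in the interior of the
solid and ends at `p (k + 1)`.  After the last bounce the point runs on (in the interior of the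
solid) for a time `s ≥ 0` and is then at `x`, with velocity `v`. -/
def ReturnsAfter (A : Fin 4 → E3) (x v : E3) (n : ℕ) : Prop :=
  x ∈ Solid A ∧ ‖v‖ = 1 ∧
  ∃ (f : ℕ → Fin 4) (p u : ℕ → E3) (t : ℕ → ℝ),
    p 0 = x ∧ u 0 = v ∧
    (∀ k, k < n →
      0 < t k ∧ (∀ r : ℝ, 0 < r → r < t k → p k + r • u k ∈ interior (Solid A)) ∧
      p (k + 1) = p k + t k • u k ∧ p (k + 1) ∈ OpenFace A (f (k + 1)) ∧
      Reflects A (f (k + 1)) (u k) (u (k + 1))) ∧
    ∃ s : ℝ, 0 ≤ s ∧ (∀ r : ℝ, 0 < r → r < s → p n + r • u n ∈ interior (Solid A)) ∧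
      x = p n + s • u n ∧ v = u n

/-- The trajectory that starts at `x` with velocity `v` is a periodic orbit with `n` bounces:
`n` is the least positive integer such that it is back at `x` with velocity `v` after `n`
bounces. -/
def IsPeriodicOrbit (A : Fin 4 → E3) (x v : E3) (n : ℕ) : Prop :=
  IsLeast {m : ℕ | 1 ≤ m ∧ ReturnsAfter A x v m} n

end Pool.Agent.X146.Tet
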