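import Mathlib

set_option autoImplicit false

/-! The matrices of the four reflections; an orthogonal `3 × 3` matrix of determinant `-1` with a
fixed vector has trace `1`; a reduced word in the reflections has a trace that is not an integer. -/

namespace Pool.Agent.X146.Tet

open Matrix

/-- the vectors `(1,1,1), (1,-1,-1), (-1,1,-1), (-1,-1,1)` -/
def e : Fin 4 → Fin 3 → ℤ
  | 0 => ![1, 1, 1]
  | 1 => ![1, -1, -1]
  | 2 => ![-1, 1, -1]
  | 3 => ![-1, -1, 1]

/-- three times the matrix of the reflection -/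
def N (i : Fin 4) : Matrix (Fin 3) (Fin 3) ℤ := fun a b => (if a = b then 3 else 0) - 2 * e i a * e i b

/-- the product of the matrices along a sequence of faces -/
def W (f : ℕ → Fin 4) : ℕ → Matrix (Fin 3) (Fin 3) ℤ
  | 0 => 1
  | n + 1 => N (f (n + 1)) * W f n

lemma N_mod (i : Fin 4) : (N i).map (Int.cast : ℤ → ZMod 3)
    = vecMulVec (fun a => (e i a : ZMod 3)) (fun a => (e i a : ZMod 3)) := by
  fin_cases i <;> decide

lemma dot_mod (i j : Fin 4) (h : i ≠ j) :
    (fun a => (e i a : ZMod 3)) ⬝ᵥ (fun a => (e j a : ZMod 3)) = -1 := by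
  revert h
  fin_cases i <;> fin_cases j <;> decide

lemma W_mod (f : ℕ → Fin 4) (n : ℕ) (h : ∀ k, k < n → f (k + 1) ≠ f (k + 2)) :
    ∃ c : ZMod 3, (c = 1 ∨ c = -1) ∧ (W f (n + 1)).map (Int.cast : ℤ → ZMod 3)
      = c • vecMulVec (fun a => (e (f (n + 1)) a : ZMod 3)) (fun a => (e (f 1) a : ZMod 3)) := by
  induction n with
  | zero =>
    refine ⟨1, Or.inl rfl, ?_⟩
    simp only [W, mul_one, one_smul, zero_add]
    exact N_mod _
  | succ n ih =>
    obtain ⟨c, hc, ih⟩ := ih fun k hk => h k (by omega)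
    refine ⟨-c, by rcases hc with rfl | rfl <;> simp, ?_⟩
    have e1 : (W f (n + 1 + 1)).map (Int.cast : ℤ → ZMod 3)
        = (N (f (n + 2))).map (Int.cast : ℤ → ZMod 3) * (W f (n + 1)).map (Int.cast : ℤ → ZMod 3) := by
      change (N (f (n + 2)) * W f (n + 1)).map (Int.cast : ℤ → ZMod 3) = _
      exact Matrix.map_mul (f := Int.castRingHom (ZMod 3))
    rw [e1, ih, N_mod]
    rw [mul_smul_comm, vecMulVec_mul_vecMulVec, dot_mod _ _ (h n (by omega)).symm]
    ext a b
    simp [vecMulVec_apply]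

lemma trace_W_ne (f : ℕ → Fin 4) (n : ℕ) (h : ∀ k, k < n → f (k + 1) ≠ f (k + 2))
    (hc : f (n + 1) ≠ f 1) : ((W f (n + 1)).trace : ZMod 3) ≠ 0 := by
  obtain ⟨c, hc1, hW⟩ := W_mod f n h
  have e1 : ((W f (n + 1)).trace : ZMod 3) = ((W f (n + 1)).map (Int.cast : ℤ → ZMod 3)).trace := by
    simp [Matrix.trace]
  rw [e1, hW, trace_smul, trace_vecMulVec, dot_mod _ _ hc]
  rcases hc1 with rfl | rfl <;> decide

/-- the reflections as real matrices -/
noncomputable def R (i : Fin 4) : Matrix (Fin 3) (Fin 3) ℝ :=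
  fun a b => (if a = b then 1 else 0) - 2 / 3 * e i a * e i b

noncomputable def P (f : ℕ → Fin 4) : ℕ → Matrix (Fin 3) (Fin 3) ℝ
  | 0 => 1
  | n + 1 => R (f (n + 1)) * P f n

lemma R_eq (i : Fin 4) : (N i).map (Int.cast : ℤ → ℝ) = (3:ℝ) • R i := by
  ext a b
  simp only [Matrix.map_apply, N, R, Matrix.smul_apply, smul_eq_mul]
  split_ifs <;> push_cast <;> ring

lemma P_eq (f : ℕ → Fin 4) (n : ℕ) : (W f n).map (Int.cast : ℤ → ℝ) = (3:ℝ) ^ n • P f n := by
  induction n with
  | zero =>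
    simp only [W, P, pow_zero, one_smul]
    ext a b
    simp [Matrix.one_apply]
  | succ n ih =>
    have e1 : (W f (n + 1)).map (Int.cast : ℤ → ℝ)
        = (N (f (n + 1))).map (Int.cast : ℤ → ℝ) * (W f n).map (Int.cast : ℤ → ℝ) := by
      change (N (f (n + 1)) * W f n).map (Int.cast : ℤ → ℝ) = _
      exact Matrix.map_mul (f := Int.castRingHom ℝ)
    rw [e1, ih, R_eq]
    simp only [P, smul_mul_assoc, mul_smul_comm, smul_smul, pow_succ]

lemma N_sq (i : Fin 4) : ∀ a b, ((N i)ᵀ * N i) a b = if a = b then 9 else 0 := by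
  fin_cases i <;> decide

lemma N_det (i : Fin 4) : (N i).det = -27 := by
  rw [det_fin_three]
  fin_cases i <;> decide

lemma R_symm_sq (i : Fin 4) : (R i)ᵀ * R i = 1 := by
  have h1 : ((N i)ᵀ * N i).map (Int.cast : ℤ → ℝ)
      = ((N i).map (Int.cast : ℤ → ℝ))ᵀ * (N i).map (Int.cast : ℤ → ℝ) := by
    rw [← Matrix.transpose_map]
    exact Matrix.map_mul (f := Int.castRingHom ℝ)
  rw [R_eq] at h1
  ext a b
  have h2 := congrFun (congrFun h1 a) b
  rw [Matrix.map_apply, N_sq] at h2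
  simp only [Matrix.transpose_smul, smul_mul_assoc, mul_smul_comm,
    Matrix.smul_apply, smul_eq_mul] at h2
  rw [Matrix.one_apply]
  split_ifs at h2 ⊢ <;> push_cast at h2 <;> linarith

lemma R_det (i : Fin 4) : (R i).det = -1 := by
  have h1 : (((N i).det : ℤ) : ℝ) = ((N i).map (Int.cast : ℤ → ℝ)).det :=
    (Int.castRingHom ℝ).map_det (N i)
  rw [R_eq, N_det, det_smul] at h1
  simp only [Fintype.card_fin] at h1
  push_cast at h1
  linarith

lemma P_orth (f : ℕ → Fin 4) (n : ℕ) : (P f n)ᵀ * P f n = 1 := by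
  induction n with
  | zero => simp [P]
  | succ n ih =>
    simp only [P, transpose_mul]
    rw [Matrix.mul_assoc, ← Matrix.mul_assoc _ (R _), R_symm_sq, Matrix.one_mul, ih]

lemma P_det (f : ℕ → Fin 4) (n : ℕ) : (P f n).det = (-1) ^ n := by
  induction n with
  | zero => simp [P]
  | succ n ih => simp only [P, det_mul, R_det, ih, pow_succ]; ring

lemma det_sub_one (M : Matrix (Fin 3) (Fin 3) ℝ) :
    (M - 1).det = M.det - M.adjugate.trace + M.trace - 1 := by
  rw [det_fin_three, det_fin_three, adjugate_fin_three, trace_fin_three, trace_fin_three]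
  simp
  ring

lemma trace_eq_one (M : Matrix (Fin 3) (Fin 3) ℝ) (h : Mᵀ * M = 1) (hd : M.det = -1)
    (v : Fin 3 → ℝ) (hv : v ≠ 0) (hMv : M *ᵥ v = v) : M.trace = 1 := by
  have h1 : M.adjugate = - Mᵀ := by
    have h2 : M * M.adjugate = -1 := by rw [mul_adjugate, hd]; simp
    calc M.adjugate = (Mᵀ * M) * M.adjugate := by rw [h, Matrix.one_mul]
      _ = Mᵀ * (M * M.adjugate) := by rw [Matrix.mul_assoc]
      _ = - Mᵀ := by rw [h2]; simp
  have h3 : (M - 1).det = 0 := by
    rw [← exists_mulVec_eq_zero_iff]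
    exact ⟨v, hv, by rw [sub_mulVec, hMv, one_mulVec, sub_self]⟩
  rw [det_sub_one, h1, hd, trace_neg, trace_transpose] at h3
  linarith

/-- the main algebraic statement -/
theorem no_odd (f : ℕ → Fin 4) (n : ℕ) (hn : Odd (n + 1))
    (h : ∀ k, k < n → f (k + 1) ≠ f (k + 2)) (hc : f (n + 1) ≠ f 1)
    (v : Fin 3 → ℝ) (hv : v ≠ 0) (hMv : P f (n + 1) *ᵥ v = v) : False := by
  have h1 := trace_eq_one _ (P_orth f (n + 1)) (by rw [P_det, hn.neg_one_pow]) v hv hMv
  have h2 := congrArg Matrix.trace (P_eq f (n + 1))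
  rw [trace_smul, h1, smul_eq_mul, mul_one] at h2
  have h3 : ((W f (n + 1)).map (Int.cast : ℤ → ℝ)).trace = ((W f (n + 1)).trace : ℝ) := by
    simp [Matrix.trace]
  rw [h3] at h2
  have h4 : (W f (n + 1)).trace = 3 ^ (n + 1) := by exact_mod_cast h2
  apply trace_W_ne f n h hc
  rw [h4]
  push_cast
  have : (3 : ZMod 3) = 0 := by decide
  rw [this, zero_pow (by omega)]

end Pool.Agent.X146.Tet
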