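import Mathlib
import Pool.Agent.X146.Tet.Mat
import Pool.Agent.X146.Tet.Def

set_option autoImplicit false

/-! Coordinates adapted to a regular tetrahedron. -/

namespace Pool.Agent.X146.Tet

open scoped RealInnerProductSpace
open Finset

/-- the centroid -/
noncomputable def cen (A : Fin 4 → E3) : E3 := (1 / 4 : ℝ) • ∑ i, A i

/-- the vectors from the centroid to the vertices -/
noncomputable def bb (A : Fin 4 → E3) (i : Fin 4) : E3 := A i - cen A

lemma sum_bb (A : Fin 4 → E3) : ∑ i, bb A i = 0 := by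
  simp only [bb, cen, sum_sub_distrib, sum_const, card_univ, Fintype.card_fin]
  rw [← Nat.cast_smul_eq_nsmul ℝ, smul_smul]
  norm_num

lemma bb_sub (A : Fin 4 → E3) (i j : Fin 4) : bb A i - bb A j = A i - A j := by
  simp [bb]

lemma inner_bb {A : Fin 4 → E3} {a : ℝ} (h : ∀ i j : Fin 4, i ≠ j → dist (A i) (A j) = a) :
    ∀ i j, ⟪bb A i, bb A j⟫ = if i = j then 3 * (a ^ 2 / 8) else - (a ^ 2 / 8) := by
  have hd : ∀ i j, i ≠ j →
      ⟪bb A i, bb A i⟫ - 2 * ⟪bb A i, bb A j⟫ + ⟪bb A j, bb A j⟫ = a ^ 2 := by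
    intro i j hij
    have h1 : ⟪A i - A j, A i - A j⟫ = a ^ 2 := by
      rw [real_inner_self_eq_norm_sq, ← dist_eq_norm, h i j hij]
    rw [← bb_sub, inner_sub_left, inner_sub_right, inner_sub_right,
      real_inner_comm (bb A i) (bb A j)] at h1
    linarith
  have hs : ∀ i, ∑ j, ⟪bb A i, bb A j⟫ = 0 := by
    intro i
    rw [← inner_sum, sum_bb, inner_zero_right]
  have c : ∀ i j, ⟪bb A i, bb A j⟫ = ⟪bb A j, bb A i⟫ := fun i j => real_inner_comm _ _
  have s0 := hs 0
  have s1 := hs 1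
  have s2 := hs 2
  have s3 := hs 3
  simp only [Fin.sum_univ_four] at s0 s1 s2 s3
  have d01 := hd 0 1 (by decide)
  have d02 := hd 0 2 (by decide)
  have d03 := hd 0 3 (by decide)
  have d12 := hd 1 2 (by decide)
  have d13 := hd 1 3 (by decide)
  have d23 := hd 2 3 (by decide)
  have c10 := c 1 0
  have c20 := c 2 0
  have c30 := c 3 0
  have c21 := c 2 1
  have c31 := c 3 1
  have c32 := c 3 2
  intro i j
  fin_cases i <;> fin_cases j <;>
    simp [-inner_self_eq_norm_sq_to_K] <;> linarith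

/-- the three candidates for an orthonormal basis -/
noncomputable def ub (A : Fin 4 → E3) (a : ℝ) (j : Fin 3) : E3 :=
  (Real.sqrt (a ^ 2 / 2))⁻¹ • (bb A 0 + bb A j.succ)

lemma ub_orth {A : Fin 4 → E3} {a : ℝ} (ha : 0 < a)
    (h : ∀ i j : Fin 4, i ≠ j → dist (A i) (A j) = a) : Orthonormal ℝ (ub A a) := by
  rw [orthonormal_iff_ite]
  intro i j
  have hq : (Real.sqrt (a ^ 2 / 2))⁻¹ * (Real.sqrt (a ^ 2 / 2))⁻¹ = (a ^ 2 / 2)⁻¹ := by
    rw [← mul_inv, Real.mul_self_sqrt (by positivity)]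
  have ha2 : a ^ 2 ≠ 0 := by positivity
  rw [ub, ub, inner_smul_left, inner_smul_right, ← mul_assoc]
  simp only [conj_trivial]
  rw [hq, inner_add_left, inner_add_right, inner_add_right, inner_bb h, inner_bb h, inner_bb h,
    inner_bb h]
  have e1 : ¬ ((0 : Fin 4) = j.succ) := (Fin.succ_ne_zero j).symm
  have e2 : ¬ (i.succ = (0 : Fin 4)) := Fin.succ_ne_zero i
  rw [if_pos rfl, if_neg e1, if_neg e2]
  by_cases hij : i = j
  · rw [if_pos (by rw [hij]), if_pos hij]
    field_simp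
    ring
  · rw [if_neg (fun hh => hij (Fin.succ_injective _ hh)), if_neg hij]
    ring_nf

/-- the orthonormal basis -/
noncomputable def ob {A : Fin 4 → E3} {a : ℝ} (ha : 0 < a)
    (h : ∀ i j : Fin 4, i ≠ j → dist (A i) (A j) = a) : OrthonormalBasis (Fin 3) ℝ E3 :=
  OrthonormalBasis.mk (ub_orth ha h) (by
    have := (ub_orth ha h).linearIndependent.span_eq_top_of_card_eq_finrank' (by simp)
    rw [this])

lemma ob_apply {A : Fin 4 → E3} {a : ℝ} (ha : 0 < a)
    (h : ∀ i j : Fin 4, i ≠ j → dist (A i) (A j) = a) (j : Fin 3) : ob ha h j = ub A a j := by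
  simp [ob]

/-- the coordinates of the vectors `bb i` -/
lemma inner_bb_ob {A : Fin 4 → E3} {a : ℝ} (ha : 0 < a)
    (h : ∀ i j : Fin 4, i ≠ j → dist (A i) (A j) = a) (i : Fin 4) (j : Fin 3) :
    ⟪bb A i, ob ha h j⟫ = (Real.sqrt (a ^ 2 / 2))⁻¹ * (a ^ 2 / 4) * e i j := by
  rw [ob_apply, ub, inner_smul_right, inner_add_right, inner_bb h, inner_bb h, mul_assoc]
  congr 1
  fin_cases i <;> fin_cases j <;> simp [e] <;> ring

/-- the factor in front of `e i` in the coordinates of `bb i` -/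
noncomputable def fac (a : ℝ) : ℝ := (Real.sqrt (a ^ 2 / 2))⁻¹ * (a ^ 2 / 4)

lemma fac_pos {a : ℝ} (ha : 0 < a) : 0 < fac a := by
  unfold fac
  positivity

lemma normal_entries (x : Fin 3 → ℝ) (i : Fin 4)
    (h1 : ∀ j k : Fin 4, j ≠ i → k ≠ i → ∑ m, ((e j m : ℝ) - (e k m : ℝ)) * x m = 0)
    (h2 : ∑ m, x m * x m = 1) : ∀ p q : Fin 3, x p * x q = (1 / 3 : ℝ) * e i p * e i q := by
  simp only [Fin.sum_univ_three] at h1 h2
  have key : x 1 = e i 1 * e i 0 * x 0 ∧ x 2 = e i 2 * e i 0 * x 0 := by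
    fin_cases i
    · have a1 := h1 1 2 (by decide) (by decide)
      have a2 := h1 1 3 (by decide) (by decide)
      simp [e] at a1 a2 ⊢
      constructor <;> linarith
    · have a1 := h1 0 2 (by decide) (by decide)
      have a2 := h1 0 3 (by decide) (by decide)
      simp [e] at a1 a2 ⊢
      constructor <;> linarith
    · have a1 := h1 0 1 (by decide) (by decide)
      have a2 := h1 0 3 (by decide) (by decide)
      simp [e] at a1 a2 ⊢
      constructor <;> linarith
    · have a1 := h1 0 1 (by decide) (by decide)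
      have a2 := h1 0 2 (by decide) (by decide)
      simp [e] at a1 a2 ⊢
      constructor <;> linarith
  obtain ⟨k1, k2⟩ := key
  have hsq : ∀ m, ((e i m : ℤ) : ℝ) * (e i m : ℝ) = 1 := by
    intro m
    have : e i m * e i m = 1 := by
      revert m
      fin_cases i <;> decide
    exact_mod_cast this
  have s0 := hsq 0
  have s1 := hsq 1
  have s2 := hsq 2
  rw [k1, k2] at h2
  have h0 : x 0 * x 0 = 1 / 3 := by
    have e1 : (e i 1 * e i 0 * x 0) * (e i 1 * e i 0 * x 0) = x 0 * x 0 := by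
      linear_combination (x 0 * x 0 * e i 0 * e i 0) * s1 + (x 0 * x 0) * s0
    have e2 : (e i 2 * e i 0 * x 0) * (e i 2 * e i 0 * x 0) = x 0 * x 0 := by
      linear_combination (x 0 * x 0 * e i 0 * e i 0) * s2 + (x 0 * x 0) * s0
    rw [e1, e2] at h2
    linarith
  have k : ∀ p, x p = e i p * e i 0 * x 0 := by
    intro p
    fin_cases p
    · simp only [Fin.zero_eta]
      rw [s0, one_mul]
    · exact k1
    · exact k2
  intro p q
  rw [k p, k q]
  linear_combination (e i p * e i q * (x 0 * x 0)) * s0 + (e i p * e i q : ℝ) * h0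

/-- in the coordinates, a reflection is given by the matrix `R i` -/
lemma reflects_coord {A : Fin 4 → E3} {a : ℝ} (ha : 0 < a)
    (h : ∀ i j : Fin 4, i ≠ j → dist (A i) (A j) = a) {i : Fin 4} {u u' : E3}
    (hr : Reflects A i u u') :
    (fun m => ⟪u', ob ha h m⟫) = Matrix.mulVec (R i) (fun m => ⟪u, ob ha h m⟫) := by
  obtain ⟨ν, hν, hp, rfl⟩ := hr
  set B := ob ha h with hB
  -- orthogonality in coordinates
  have h1 : ∀ j k : Fin 4, j ≠ i → k ≠ i →
      ∑ m, ((e j m : ℝ) - (e k m : ℝ)) * ⟪ν, B m⟫ = 0 := by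
    intro j k hj hk
    have h2 := hp j k hj hk
    rw [← bb_sub, ← B.sum_inner_mul_inner] at h2
    have h3 : ∀ m, ⟪bb A j - bb A k, B m⟫ * ⟪B m, ν⟫
        = fac a * (((e j m : ℝ) - (e k m : ℝ)) * ⟪ν, B m⟫) := by
      intro m
      rw [inner_sub_left, hB, inner_bb_ob, inner_bb_ob, real_inner_comm ν, fac]
      ring
    rw [sum_congr rfl (fun m _ => h3 m), ← mul_sum] at h2
    exact (mul_eq_zero.mp h2).resolve_left (fac_pos ha).ne'
  have h2 : ∑ m, ⟪ν, B m⟫ * ⟪ν, B m⟫ = 1 := by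
    have := B.sum_inner_mul_inner ν ν
    rw [real_inner_self_eq_norm_sq, hν] at this
    simp only [real_inner_comm ν] at this
    simpa using this
  have hu : ⟪u, ν⟫ = ∑ m, ⟪u, B m⟫ * ⟪ν, B m⟫ := by
    rw [← B.sum_inner_mul_inner u ν]
    exact sum_congr rfl fun m _ => by rw [real_inner_comm ν]
  -- the entries of the normal
  have h3 : ∀ p q : Fin 3, ⟪ν, B p⟫ * ⟪ν, B q⟫ = (1 / 3 : ℝ) * e i p * e i q := by
    exact normal_entries (fun m => ⟪ν, B m⟫) i h1 h2
  ext p
  simp only [inner_sub_left, inner_smul_left, Matrix.mulVec, dotProduct, R, conj_trivial]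
  rw [hu]
  have h4 : ∀ q : Fin 3, ((if p = q then (1:ℝ) else 0) - 2 / 3 * e i p * e i q) * ⟪u, B q⟫
      = (if p = q then ⟪u, B q⟫ else 0) - 2 * (⟪u, B q⟫ * ⟪ν, B q⟫) * ⟪ν, B p⟫ := by
    intro q
    have := h3 p q
    split_ifs
    · linear_combination (2 * ⟪u, B q⟫) * this
    · linear_combination (2 * ⟪u, B q⟫) * this
  rw [sum_congr rfl (fun q _ => h4 q), sum_sub_distrib, ← sum_mul, ← mul_sum]
  simp

end Pool.Agent.X146.Tet
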