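import Mathlib
import Pool.Agent.X146.Tet.Geo

set_option autoImplicit false

/-! Consecutive bounces are on different faces; the parity theorem. -/

namespace Pool.Agent.X146.Tet

open scoped RealInnerProductSpace
open Finset

section

variable {A : Fin 4 → E3} {a : ℝ}

lemma cen_add_sum {c : Fin 4 → ℝ} (hc : ∑ j, c j = 1) :
    ∑ j, c j • A j - cen A = ∑ j, c j • bb A j := by
  simp only [bb, smul_sub, sum_sub_distrib]
  rw [← sum_smul, hc, one_smul]

lemma height_sum (h : ∀ i j : Fin 4, i ≠ j → dist (A i) (A j) = a) {c : Fin 4 → ℝ}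
    (hc : ∑ j, c j = 1) (i : Fin 4) :
    ⟪∑ j, c j • A j - cen A, bb A i⟫ = a ^ 2 / 8 * (4 * c i - 1) := by
  rw [cen_add_sum hc, sum_inner]
  have h1 : ∀ j, ⟪c j • bb A j, bb A i⟫ = - (a ^ 2 / 8) * c j + (if j = i then a ^ 2 / 2 * c j else 0) := by
    intro j
    rw [inner_smul_left, inner_bb h, conj_trivial]
    split_ifs <;> ring
  rw [sum_congr rfl (fun j _ => h1 j), sum_add_distrib, ← mul_sum, hc]
  simp
  ring

/-- on a face the height is minimal -/
lemma height_face (h : ∀ i j : Fin 4, i ≠ j → dist (A i) (A j) = a) {i : Fin 4} {y : E3}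
    (hy : y ∈ OpenFace A i) : ⟪y - cen A, bb A i⟫ = - (a ^ 2 / 8) := by
  obtain ⟨c, h0, -, h1, rfl⟩ := hy
  rw [height_sum h h1, h0]
  ring

lemma height_solid (h : ∀ i j : Fin 4, i ≠ j → dist (A i) (A j) = a) (i : Fin 4) {y : E3}
    (hy : y ∈ Solid A) : - (a ^ 2 / 8) ≤ ⟪y - cen A, bb A i⟫ := by
  have : Solid A ⊆ {z : E3 | - (a ^ 2 / 8) ≤ ⟪z - cen A, bb A i⟫} := by
    refine convexHull_min ?_ ?_
    · rintro _ ⟨j, rfl⟩
      change _ ≤ ⟪bb A j, bb A i⟫
      rw [inner_bb h]
      split_ifs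
      · nlinarith [sq_nonneg a]
      · exact le_rfl
    · intro p hp q hq s t hs ht hst
      simp only [Set.mem_ofPred_eq] at *
      have e1 : s • p + t • q - cen A = s • (p - cen A) + t • (q - cen A) := by
        have : cen A = (s + t) • cen A := by rw [hst, one_smul]
        nth_rw 1 [this]
        module
      rw [e1, inner_add_left, inner_smul_left, inner_smul_left, conj_trivial, conj_trivial]
      have : - (a ^ 2 / 8) = s * (- (a ^ 2 / 8)) + t * (- (a ^ 2 / 8)) := by
        rw [← add_mul, hst, one_mul]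
      rw [this]
      exact add_le_add (mul_le_mul_of_nonneg_left hp hs) (mul_le_mul_of_nonneg_left hq ht)
  exact this hy

lemma height_interior (ha : 0 < a) (h : ∀ i j : Fin 4, i ≠ j → dist (A i) (A j) = a)
    (i : Fin 4) {y : E3} (hy : y ∈ interior (Solid A)) :
    - (a ^ 2 / 8) < ⟪y - cen A, bb A i⟫ := by
  have h1 : Filter.Tendsto (fun r : ℝ => y - r • bb A i) (nhdsWithin 0 (Set.Ioi 0)) (nhds y) := by
    have : Continuous (fun r : ℝ => y - r • bb A i) := by fun_prop
    have h2 := this.tendsto 0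
    simp only [zero_smul, sub_zero] at h2
    exact h2.mono_left nhdsWithin_le_nhds
  have h2 := h1.eventually (mem_interior_iff_mem_nhds.mp hy)
  obtain ⟨r, hr, hr0⟩ := (h2.and self_mem_nhdsWithin).exists
  have h3 := height_solid h i hr
  have h4 : y - r • bb A i - cen A = (y - cen A) - r • bb A i := by abel
  rw [h4, inner_sub_left, inner_smul_left, inner_bb h, if_pos rfl, conj_trivial] at h3
  have : 0 < r * (3 * (a ^ 2 / 8)) := by
    have : (0:ℝ) < r := hr0
    positivity
  linarith

/-- a segment whose end points lie in the same face does not run through the interior -/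
lemma face_ne (ha : 0 < a) (h : ∀ i j : Fin 4, i ≠ j → dist (A i) (A j) = a)
    {i j : Fin 4} {y v : E3} {t r : ℝ} (ht : 0 < t) (hy : y ∈ OpenFace A i)
    (hz : y + t • v ∈ OpenFace A j) (hr : y + r • v ∈ interior (Solid A)) : i ≠ j := by
  rintro rfl
  have h1 := height_face h hy
  have h2 := height_face h hz
  have h3 := height_interior ha h i hr
  have e1 : ∀ r : ℝ, ⟪y + r • v - cen A, bb A i⟫ = ⟪y - cen A, bb A i⟫ + r * ⟪v, bb A i⟫ := by
    intro r
    have : y + r • v - cen A = (y - cen A) + r • v := by abel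
    rw [this, inner_add_left, inner_smul_left, conj_trivial]
  rw [e1] at h2 h3
  have h4 : ⟪v, bb A i⟫ = 0 := by
    have : t * ⟪v, bb A i⟫ = 0 := by linarith
    exact (mul_eq_zero.mp this).resolve_left ht.ne'
  rw [h4] at h3
  linarith

end

theorem even_of_returns {A : Fin 4 → E3} (hA : IsRegularTetrahedron A) {x v : E3} {n : ℕ}
    (hn : 1 ≤ n) (h : ReturnsAfter A x v n) : Even n := by
  obtain ⟨a, ha, hd⟩ := hA
  obtain ⟨-, hv, f, p, u, t, hp0, hu0, hleg, s, hs, hs1, hx, hvn⟩ := h
  by_contra hodd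
  rw [Nat.not_even_iff_odd] at hodd
  obtain ⟨m, rfl⟩ : ∃ m, n = m + 1 := ⟨n - 1, by omega⟩
  -- consecutive faces
  have hne : ∀ k, k < m → f (k + 1) ≠ f (k + 2) := by
    intro k hk
    obtain ⟨-, -, -, hf1, -⟩ := hleg k (by omega)
    obtain ⟨ht, hint, hp, hf2, -⟩ := hleg (k + 1) (by omega)
    rw [hp] at hf2
    exact face_ne ha hd ht hf1 hf2 (hint (t (k + 1) / 2) (by linarith) (by linarith))
  -- the last face and the first one
  have hc : f (m + 1) ≠ f 1 := by
    obtain ⟨-, -, -, hf1, -⟩ := hleg m (by omega)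
    obtain ⟨ht, hint, hp, hf2, -⟩ := hleg 0 (by omega)
    have hi := hint (t 0 / 2) (by linarith) (by linarith)
    rw [hp] at hf2
    rw [hp0, hu0, hvn, hx] at hi hf2
    have e1 : ∀ r : ℝ, p (m + 1) + s • u (m + 1) + r • u (m + 1) = p (m + 1) + (s + r) • u (m + 1) := by
      intro r
      module
    rw [e1] at hi hf2
    exact face_ne ha hd (by linarith) hf1 hf2 hi
  -- the coordinates of the velocities
  have hw : ∀ k, k ≤ m + 1 → (fun q => ⟪u k, ob ha hd q⟫)
      = Matrix.mulVec (P f k) (fun q => ⟪v, ob ha hd q⟫) := by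
    intro k
    induction k with
    | zero => intro _; rw [hu0, P, Matrix.one_mulVec]
    | succ k ih =>
      intro hk
      obtain ⟨-, -, -, -, hr⟩ := hleg k (by omega)
      rw [reflects_coord ha hd hr, ih (by omega), P, Matrix.mulVec_mulVec]
  have hw1 := hw (m + 1) le_rfl
  rw [← hvn] at hw1
  refine no_odd f m hodd hne hc (fun q => ⟪v, ob ha hd q⟫) ?_ hw1.symm
  intro hz
  have h0 : ⟪v, v⟫ = 0 := by
    rw [← (ob ha hd).sum_inner_mul_inner v v]
    refine sum_eq_zero fun q _ => ?_
    have : ⟪v, ob ha hd q⟫ = 0 := congrFun hz q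
    rw [this, zero_mul]
  rw [real_inner_self_eq_norm_sq, hv] at h0
  norm_num at h0

end Pool.Agent.X146.Tet
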